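import Pool.Agent.Q279.BZ.Final

set_option autoImplicit false

namespace Pool.Agent.Results.MP_32694d_nt.LimitExists
open Polynomial Filter Topology

/-- `f, g` have no common root in `ℂ`. -/
def Coprime (f g : ℤ[X]) : Prop := ¬ ∃ z : ℂ, aeval z f = 0 ∧ aeval z g = 0

/-- `p, q ∈ ℚ[x]`, `p f + q g = 1`, `deg p < deg g`, `deg q < deg f`. -/
def IsBezoutPair (f g : ℤ[X]) (p q : ℚ[X]) : Prop :=
  p * f.map (Int.castRingHom ℚ) + q * g.map (Int.castRingHom ℚ) = 1 ∧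
    p.degree < g.degree ∧ q.degree < f.degree

/-- All coefficients of `p` are integers. -/
def HasIntCoeffs (p : ℚ[X]) : Prop := ∀ i, ∃ z : ℤ, p.coeff i = z

/-- `B(f,g)`: the least positive `N` such that `N p` and `N q` have integer coefficients. -/
noncomputable def B (f g : ℤ[X]) : ℕ :=
  sInf {N : ℕ | 0 < N ∧ ∃ p q : ℚ[X], IsBezoutPair f g p q ∧
    HasIntCoeffs (C (N : ℚ) * p) ∧ HasIntCoeffs (C (N : ℚ) * q)}

/-- `R(f,g) = |Res(f,g)|`. -/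
noncomputable def R (f g : ℤ[X]) : ℕ := (resultant f g).natAbs

/-- `𝒫_k(H)`: exact degree `k`, positive leading coefficient, coefficients in `[-H,H]`. -/
def P (k H : ℕ) : Set ℤ[X] :=
  {f | f.natDegree = k ∧ 0 < f.leadingCoeff ∧ ∀ i, -(H : ℤ) ≤ f.coeff i ∧ f.coeff i ≤ (H : ℤ)}

/-- `S_{m,n}(H)`: the coprime pairs. -/
def S (m n H : ℕ) : Set (ℤ[X] × ℤ[X]) :=
  {x | x.1 ∈ P m H ∧ x.2 ∈ P n H ∧ Coprime x.1 x.2}

/-- `E_{m,n}(H)`: the coprime pairs with `B = R`. -/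
def E (m n H : ℕ) : Set (ℤ[X] × ℤ[X]) := {x | x ∈ S m n H ∧ B x.1 x.2 = R x.1 x.2}

/-- `ρ_{m,n}(H) = #E / #S`. -/
noncomputable def rho (m n H : ℕ) : ℝ := ((E m n H).ncard : ℝ) / ((S m n H).ncard : ℝ)

/-- For all `m, n ≥ 2` the limit of `ρ_{m,n}(H)` exists, equals `36/π⁴ = 1/ζ(2)²`, and is `< 1/2`. -/
theorem result (m n : ℕ) (hm : 2 ≤ m) (hn : 2 ≤ n) :
    Tendsto (fun H : ℕ => rho m n H) atTop (𝓝 (36 / Real.pi ^ 4)) ∧ 36 / Real.pi ^ 4 < (1 / 2 : ℝ) :=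
  ⟨Q279.BZ.rho_tendsto m n hm hn, Q279.BZ.const_lt⟩

end Pool.Agent.Results.MP_32694d_nt.LimitExists
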